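import Pool.Agent.H51.CST.All
import Pool.Agent.H51.ADG.Long

/-!
# Algebraically defined graphs contain cycles of length `2 l` for `l = 4` and all `l ≥ 6`

For polynomials `f i` in two variables over a commutative ring `R`, the graph `Gam f` (defined in
`Pool.Agent.H51.ADG.Graph`) is the algebraically defined graph: its vertices are the points
`(a, v)` and the lines `(b, w)`, with `a`, `b` in `R` and `v`, `w` in `R ^ m`, and `(a, v)` is
adjacent to `(b, w)` if and only if `v i + w i = f i (a, b)` for all `i`.  With `m = l - 1`
polynomials over the field with `q` elements it has `2 q ^ l` vertices and `q ^ (l + 1)` edges.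

For `l = 2, 3, 5` the polynomials `x ^ i * y` give graphs without cycles of length `2 l`
(Wenger).  For all other `l` no polynomials of bounded degree do, over any large field.
-/

open SimpleGraph MvPolynomial Pool.Agent.H51.ADG Pool.Agent.H51.CST

namespace Pool.Agent.Results.MP_11d263_co.AlgebraicGraphs

theorem result (l : ℕ) (hl : l = 4 ∨ 6 ≤ l) (D : ℕ) : ∃ N : ℕ, ∀ (F : Type) [Field F],
    (N : ℕ∞) ≤ ENat.card F →
    (l = 4 → (Finite F ∨ IsAlgClosed F) ∧ ∀ n : ℕ, 1 ≤ n → n ≤ max D 4 → (n : F) ≠ 0) →
    ∀ f : Fin (l - 1) → MvPolynomial (Fin 2) F, (∀ i j, (f i).degreeOf j ≤ D) →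
      (cycleGraph (2 * l)).IsContained (Gam f) := by
  classical
  rcases hl with rfl | hl6
  · obtain ⟨N, hN⟩ := c8_large_all (max D 4) (le_max_right D 4)
    refine ⟨N, fun F _ hF h4 f hf => ?_⟩
    obtain ⟨hfin, hchar⟩ := h4 rfl
    rcases hfin with hfin | hac
    · have hcard : N ≤ Nat.card F := by
        have h1 : ENat.card F = (Nat.card F : ℕ∞) := ENat.card_eq_coe_natCard F
        rw [h1] at hF
        exact_mod_cast hF
      exact hN F hcard hchar f fun i j => (hf i j).trans (le_max_left D 4)
    · have h1 := c8_algClosed (K := F) (max D 4) (le_max_right D 4) hchar f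
        (fun i j => (hf i j).trans (le_max_left D 4))
      have h2 : (fun i => map (algebraMap F F) (f i)) = f := by
        funext i
        exact MvPolynomial.map_id (f i)
      rw [h2] at h1
      exact h1
  · refine ⟨2 * D + 2 * l + 11, fun F _ hF _ f hf => ?_⟩
    refine c2l_long l D hl6 (fun T hT => ?_) f hf
    by_contra hcon
    push Not at hcon
    have : Fintype F := ⟨T, hcon⟩
    have hT' : T = Finset.univ := by
      ext x
      simp [hcon x]
    have h1 : ENat.card F = (T.card : ℕ∞) := by
      rw [ENat.card_eq_coe_fintype_card, ← Finset.card_univ, ← hT']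
    rw [h1] at hF
    have h2 : 2 * D + 2 * l + 11 ≤ T.card := by exact_mod_cast hF
    omega

end Pool.Agent.Results.MP_11d263_co.AlgebraicGraphs
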