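import Pool.Agent.H41.GT.Final

/-!
# Graphs of girth more than `2 l` with many edges, `l` even

For every even `l ≥ 2`, with `k = ⌊4 l / 3⌋`, and every `n ≥ 4 * 3 ^ k`, there is a graph on `n`
vertices with at least `(1 / 24) n ^ (1 + 1 / k)` edges and no cycle of length `3, ..., 2 l`.
In particular `ex (n, C_{2l}) ≥ (1 / 24) n ^ (1 + 1 / k)`.

The graphs are bipartite Cayley graphs of finite quotients of a group generated by quotients
`s t⁻¹` of `q + 1` linear elements `s = ρ - ρ⁻¹ Π` of the cyclic division algebra of degree three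
`D = F_{q³}(Π)`, `Π a = a ^ q Π`, `Π³ = c`, where `q = 3 ^ m`. All the `s` have reduced norm `1 - c`
and the same value `σ(s) s`, where `σ` is the involution of `D` with `σ(a) = a` and `σ(Π) = Π⁻¹`,
so the group is contained in a special unitary group of rank one at `c = 1`, and acts on a
`(q + 1)`-regular tree. If a word `w` with `j` pairs of letters is `1` modulo `Π ^ r` then
`P = (1 - c) ^ j * Nrd (w - 1)` is a nonzero polynomial of degree at most `j` divisible by `c ^ r`,
and `P (1 / c) = -(-1) ^ j * c ^ (-j) * P (c)`; therefore `j > 2 r`.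
-/

namespace Pool.Agent.Results.MP_11d263_co.EvenCycleGirth

open SimpleGraph

theorem result (l : ℕ) (heven : Even l) (hl : 2 ≤ l) (n : ℕ) (hn : 4 * 3 ^ (4 * l / 3) ≤ n) :
    (1 / 24 : ℝ) * (n : ℝ) ^ (1 + 1 / ((4 * l / 3 : ℕ) : ℝ)) ≤
      (extremalNumber n (cycleGraph (2 * l)) : ℝ) ∧
    ∃ G : SimpleGraph (Fin n),
      (∀ j, 3 ≤ j → j ≤ 2 * l → (cycleGraph j).Free G) ∧
      (1 / 24 : ℝ) * (n : ℝ) ^ (1 + 1 / ((4 * l / 3 : ℕ) : ℝ)) ≤ (G.edgeSet.ncard : ℝ) := by
  classical
  obtain ⟨G, hG, hE⟩ := H41GT.main l heven hl n hn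
  refine ⟨hE.trans ?_, G, hG, hE⟩
  have h1 := card_edgeFinset_le_extremalNumber (hG (2 * l) (by omega) le_rfl)
  rw [Fintype.card_fin] at h1
  have h2 : G.edgeSet.ncard = G.edgeFinset.card := by
    rw [← SimpleGraph.coe_edgeFinset, Set.ncard_coe_finset]
  rw [h2]
  exact_mod_cast h1

end Pool.Agent.Results.MP_11d263_co.EvenCycleGirth
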