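import Pool.Agent.H41.G4.Final

/-!
# Graphs of girth more than `2 l` with `n ^ (1 + 4 / (5 l + 10))` edges, every `l`

For every `l ≥ 2`, with `e = 8 ⌊l / 2⌋ + 6 - 2 ⌊l / 8⌋`, and every `n ≥ 4 * 2 ^ e`, there is a graph
on `n` vertices with at least `(1 / 64) n ^ (1 + 3 / e)` edges and no cycle of length `3, ..., 2 l`.
In particular `ex (n, C_{2l}) ≥ (1 / 64) n ^ (1 + 3 / e)`, and `3 / e ≥ 4 / (5 l + 10)`.

The graphs are bipartite Cayley graphs of finite quotients of a group generated by the quotients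
`s t⁻¹` of at least `q ^ 3` linear elements `s = b ^ (-q) + b Π` of the cyclic division algebra of
degree four `D = F_{q⁸}(Π)`, `Π a = a ^ (q²) Π`, `Π⁴ = c`, where `q = 2 ^ m`. All the `s` have
reduced norm `1 + c` and the same value `σ(s) (1 + Π) s`, where `σ` is the involution of the second
kind with `σ(a) = a ^ q` and `σ(Π) = Π⁻¹`. So the group lies in a special unitary group in four
variables, of rank one at the place `c = 1`, and acts on a `(q ^ 3 + 1)`-regular tree. If a word `w`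
with `j` pairs of letters is `1` modulo `Π ^ r` then `P = (1 + c) ^ j * Nrd (w - 1)` is a nonzero
polynomial in `c` of degree at most `j`, divisible by `c ^ r`, and it is palindromic up to
conjugation; therefore `j ≥ 2 r`. The number of elements of reduced norm one modulo `Π ^ r` is at
most `(1 + q ^ 2 + q ^ 4 + q ^ 6) * q ^ (8 (r - 1) - 2 ⌊(r - 1) / 4⌋)`.
-/

namespace Pool.Agent.Results.MP_11d263_co.GirthEveryLength

open SimpleGraph

theorem result (l : ℕ) (hl : 2 ≤ l) (e : ℕ) (he : e = 8 * (l / 2) + 6 - 2 * (l / 8)) :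
    (4 : ℝ) / (5 * (l : ℝ) + 10) ≤ 3 / (e : ℝ) ∧
    ∀ n : ℕ, 4 * 2 ^ e ≤ n →
      (1 / 64 : ℝ) * (n : ℝ) ^ (1 + 3 / (e : ℝ)) ≤
        (extremalNumber n (cycleGraph (2 * l)) : ℝ) ∧
      ∃ G : SimpleGraph (Fin n),
        (∀ j, 3 ≤ j → j ≤ 2 * l → (cycleGraph j).Free G) ∧
        (1 / 64 : ℝ) * (n : ℝ) ^ (1 + 3 / (e : ℝ)) ≤ (G.edgeSet.ncard : ℝ) := by
  classical
  constructor
  · have h1 : 4 * e ≤ 15 * l + 30 := by omega
    have h2 : (4 : ℝ) * e ≤ 15 * l + 30 := by exact_mod_cast h1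
    have h3 : (0 : ℝ) < e := by exact_mod_cast (show 0 < e by omega)
    rw [div_le_div_iff₀ (by positivity) h3]
    linarith
  · intro n hn
    obtain ⟨G, hG, hE⟩ := H41G4.main l e he n hn
    refine ⟨hE.trans ?_, G, hG, hE⟩
    have h1 := card_edgeFinset_le_extremalNumber (hG (2 * l) (by omega) le_rfl)
    rw [Fintype.card_fin] at h1
    have h2 : G.edgeSet.ncard = G.edgeFinset.card := by
      rw [← SimpleGraph.coe_edgeFinset, Set.ncard_coe_finset]
    rw [h2]
    exact_mod_cast h1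

end Pool.Agent.Results.MP_11d263_co.GirthEveryLength
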