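import Pool.Agent.H41.EC.Final

/-!
# A lower bound for the Turan number of `C_{2l}`, `l` odd

For every odd `l ≥ 3`, with `k = ⌊4 l / 3⌋ - 1`, and all large `n`, there is a graph on `n`
vertices with at least `(1 / 72) n ^ (1 + 1 / k)` edges which contains no cycle of length `2 j`
for any odd `j` with `3 ≤ j ≤ l`. In particular `ex (n, C_{2l}) ≥ (1 / 72) n ^ (1 + 1 / k)`.

The graphs are coset graphs of the finite groups `Γ / Γ (M)`, where `Γ` is the first congruence
subgroup of a twisted loop group of type `²A₂` over a finite field `F` and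
`M = ⌊4 l / 3⌋ + 1`. If an alternating word `w` with `j` nontrivial pairs is `1` modulo `X ^ M`
then `X ^ (3 M)` divides `det (w - 1)`, but the coefficient of `X ^ (4 j)` in
`det (w - 1) = tr w - tr w⁻¹` is a nonzero product when `j` is odd.
-/

namespace Pool.Agent.Results.MP_11d263_co.OddCycleLowerBound

open SimpleGraph

theorem result (l : ℕ) (hodd : Odd l) (hl : 3 ≤ l) (n : ℕ) (hn : 2 * 9 ^ (4 * l / 3 - 1) ≤ n) :
    (1 / 72 : ℝ) * (n : ℝ) ^ (1 + 1 / ((4 * l / 3 - 1 : ℕ) : ℝ)) ≤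
      (extremalNumber n (cycleGraph (2 * l)) : ℝ) ∧
    ∃ G : SimpleGraph (Fin n),
      (∀ j, Odd j → 3 ≤ j → j ≤ l → (cycleGraph (2 * j)).Free G) ∧
      (1 / 72 : ℝ) * (n : ℝ) ^ (1 + 1 / ((4 * l / 3 - 1 : ℕ) : ℝ)) ≤ (G.edgeSet.ncard : ℝ) := by
  classical
  obtain ⟨G, hG, hE⟩ := H41EC.main l hl n hn
  refine ⟨hE.trans ?_, G, hG, hE⟩
  have h1 := card_edgeFinset_le_extremalNumber (hG l hodd hl le_rfl)
  rw [Fintype.card_fin] at h1
  have h2 : G.edgeSet.ncard = G.edgeFinset.card := by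
    rw [← SimpleGraph.coe_edgeFinset, Set.ncard_coe_finset]
  rw [h2]
  exact_mod_cast h1

end Pool.Agent.Results.MP_11d263_co.OddCycleLowerBound
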